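import Mathlib

/-!
# Graphs of chromatic number `a⁺` without a subdivision of `K_{a⁺}`

For every infinite cardinal `a` we construct (in ZFC) a graph with chromatic number exactly `a⁺`
that contains no subdivision of the complete graph on `a⁺` vertices.  The graph is the
comparability graph of the tree of all injections from ordinals `< a⁺` into a set of size `a`,
ordered by extension.
-/

namespace Pool.Agent.Results.MP_e76a7e_co.NoTopSuccClique

open Cardinal Set

universe u

/-- The chromatic number of a graph, as a cardinal: the least cardinal `κ` such that the vertex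
set is a union of `κ` independent sets. -/
noncomputable def chi {V : Type u} (G : SimpleGraph V) : Cardinal.{u} :=
  sInf {κ | ∃ (C : Type u) (I : C → Set V),
    #C = κ ∧ (∀ c, G.IsIndepSet (I c)) ∧ (⋃ c, I c) = Set.univ}

/-- `G` contains a subdivision of the complete graph `K_κ`: there are `κ` distinct branch vertices
`b i` and, for each unordered pair of branch vertices, a (finite) path joining them, such that
no path has an inner vertex among the branch vertices, and paths of different pairs have no
common inner vertex (every common vertex is a branch vertex). -/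
def HasSubdivision {V : Type u} (G : SimpleGraph V) (κ : Cardinal.{u}) : Prop :=
  ∃ (J : Type u) (b : J → V) (P : ∀ i j : J, G.Walk (b i) (b j)),
    #J = κ ∧ Function.Injective b ∧
    (∀ i j, i ≠ j → (P i j).IsPath) ∧
    (∀ i j, i ≠ j → P j i = (P i j).reverse) ∧
    (∀ i j, i ≠ j → ∀ v ∈ (P i j).support, v ∈ Set.range b → v = b i ∨ v = b j) ∧
    (∀ i j k l, i ≠ j → k ≠ l → s(i, j) ≠ s(k, l) →
      ∀ v, v ∈ (P i j).support → v ∈ (P k l).support → v ∈ Set.range b)

/-- The question Q1: every graph with chromatic number at least `a⁺` contains a subdivision of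
`K_{a⁺}`. -/
def Question (a : Cardinal.{u}) : Prop :=
  ∀ (V : Type u) (G : SimpleGraph V), Order.succ a ≤ chi G → HasSubdivision G (Order.succ a)

/-! ### The tree of injections -/

section Tree

variable {W ι : Type u} [LinearOrder W] [WellFoundedLT W]

/-- A partial function is good if its domain is an initial segment and it is injective. -/
def Good (p : W → Option ι) : Prop :=
  (∀ x y, x ≤ y → (p y).isSome → (p x).isSome) ∧
    (∀ x y i, p x = some i → p y = some i → x = y)

variable (W ι) in
/-- The tree of all injections from initial segments of `W` to `ι`. -/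
def Tree : Type u := {p : W → Option ι // Good p}

instance : PartialOrder (Tree W ι) where
  le p q := ∀ x i, p.1 x = some i → q.1 x = some i
  le_refl p x i h := h
  le_trans p q r hpq hqr x i h := hqr x i (hpq x i h)
  le_antisymm p q hpq hqp := by
    apply Subtype.ext
    funext x
    cases hp : p.1 x with
    | none =>
      cases hq : q.1 x with
      | none => rfl
      | some i =>
        have := hqp x i hq
        rw [hp] at this
        exact absurd this (by simp)
    | some i => exact (hpq x i hp).symm

omit [WellFoundedLT W] in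
lemma le_def {p q : Tree W ι} : p ≤ q ↔ ∀ x i, p.1 x = some i → q.1 x = some i := Iff.rfl

omit [WellFoundedLT W] in
/-- Predecessors of a node are comparable. -/
lemma tree_prop {p q r : Tree W ι} (hp : p ≤ r) (hq : q ≤ r) : p ≤ q ∨ q ≤ p := by
  by_cases h : ∀ x, (p.1 x).isSome → (q.1 x).isSome
  · left
    intro x i hx
    have h1 : (q.1 x).isSome := h x (by rw [hx]; rfl)
    obtain ⟨j, hj⟩ := Option.isSome_iff_exists.mp h1
    have h2 := hp x i hx
    have h3 := hq x j hj
    rw [hj, ← h3, h2]
  · right
    push Not at h
    obtain ⟨x, hpx, hqx⟩ := h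
    intro y i hy
    have hyx : y ≤ x := by
      by_contra hlt
      have hxy : x ≤ y := le_of_lt (not_le.mp hlt)
      exact hqx (q.2.1 x y hxy (by rw [hy]; rfl))
    have h1 : (p.1 y).isSome := p.2.1 y x hyx hpx
    obtain ⟨j, hj⟩ := Option.isSome_iff_exists.mp h1
    have h2 := hp y j hj
    have h3 := hq y i hy
    rw [hj, ← h2, h3]

omit [WellFoundedLT W] in
/-- The domain of a node is bounded, if `W` does not inject into `ι`. -/
lemma exists_none (hW : #ι < #W) (p : Tree W ι) : ∃ w, p.1 w = none := by
  by_contra h
  push Not at h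
  have h1 : ∀ w, ∃ i, p.1 w = some i := fun w => Option.ne_none_iff_exists'.mp (h w)
  choose f hf using h1
  have hinj : Function.Injective f := by
    intro x y hxy
    exact p.2.2 x y (f x) (hf x) (by rw [hxy]; exact hf y)
  exact absurd (Cardinal.mk_le_of_injective hinj) (not_le.mpr hW)

open Classical in
/-- The length of a node: the least point outside of its domain. -/
noncomputable def len (hW : #ι < #W) (p : Tree W ι) : W :=
  (wellFounded_lt (α := W)).min {w | p.1 w = none} (exists_none hW p)

lemma len_none (hW : #ι < #W) (p : Tree W ι) : p.1 (len hW p) = none :=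
  (wellFounded_lt (α := W)).min_mem {w | p.1 w = none} (exists_none hW p)

lemma lt_len_iff (hW : #ι < #W) (p : Tree W ι) (x : W) : x < len hW p ↔ (p.1 x).isSome := by
  constructor
  · intro hx
    by_contra h
    have h1 : p.1 x = none := by simpa using h
    exact (wellFounded_lt (α := W)).not_lt_min {w | p.1 w = none} h1 hx
  · intro hx
    by_contra h
    have h1 := p.2.1 (len hW p) x (not_lt.mp h) hx
    rw [len_none] at h1
    exact absurd h1 (by simp)

lemma len_le_of_le (hW : #ι < #W) {p q : Tree W ι} (h : p ≤ q) : len hW p ≤ len hW q := by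
  by_contra hlt
  have h1 := (lt_len_iff hW p (len hW q)).mp (not_le.mp hlt)
  obtain ⟨i, hi⟩ := Option.isSome_iff_exists.mp h1
  have := h _ i hi
  rw [len_none] at this
  exact absurd this (by simp)

/-- Two predecessors of the same node with the same length are equal. -/
lemma eq_of_len_eq (hW : #ι < #W) {p q r : Tree W ι} (hp : p ≤ r) (hq : q ≤ r)
    (h : len hW p = len hW q) : p = q := by
  apply le_antisymm
  · intro x i hx
    have h1 : x < len hW q := by
      rw [← h]; exact (lt_len_iff hW p x).mpr (by rw [hx]; rfl)
    obtain ⟨j, hj⟩ := Option.isSome_iff_exists.mp ((lt_len_iff hW q x).mp h1)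
    have h2 := hp x i hx
    have h3 := hq x j hj
    rw [hj, ← h3, h2]
  · intro x i hx
    have h1 : x < len hW p := by
      rw [h]; exact (lt_len_iff hW q x).mpr (by rw [hx]; rfl)
    obtain ⟨j, hj⟩ := Option.isSome_iff_exists.mp ((lt_len_iff hW p x).mp h1)
    have h2 := hq x i hx
    have h3 := hp x j hj
    rw [hj, ← h3, h2]

/-- The set of predecessors of a node is small. -/
lemma mk_Iic_le {a : Cardinal.{u}} (hW : #ι < #W) (hIic : ∀ w : W, #(Iic w) ≤ a)
    (p : Tree W ι) : #(Iic p) ≤ a := by
  refine le_trans ?_ (hIic (len hW p))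
  refine Cardinal.mk_le_of_injective (f := fun q : Iic p =>
    (⟨len hW q.1, len_le_of_le hW q.2⟩ : Iic (len hW p))) ?_
  intro q q' h
  have h1 : len hW q.1 = len hW q'.1 := congrArg Subtype.val h
  exact Subtype.ext (eq_of_len_eq hW q.2 q'.2 h1)

omit [WellFoundedLT W] in
open Classical in
/-- A chain in the tree is bounded above. -/
lemma chain_bdd (B : Set (Tree W ι)) (hB : ∀ p ∈ B, ∀ q ∈ B, p ≤ q ∨ q ≤ p) :
    ∃ r : Tree W ι, ∀ p ∈ B, p ≤ r := by
  let f : W → Option ι := fun x =>
    if h : ∃ i, ∃ p ∈ B, p.1 x = some i then some h.choose else none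
  have hf : ∀ x i, f x = some i → ∃ p ∈ B, p.1 x = some i := by
    intro x i hx
    by_cases h : ∃ i, ∃ p ∈ B, p.1 x = some i
    · have : f x = some h.choose := dif_pos h
      rw [this] at hx
      have h2 := h.choose_spec
      rw [Option.some.injEq] at hx
      rwa [hx] at h2
    · have : f x = none := dif_neg h
      rw [this] at hx
      exact absurd hx (by simp)
  have hf' : ∀ x i, ∀ p ∈ B, p.1 x = some i → f x = some i := by
    intro x i p hp hx
    have h : ∃ i, ∃ p ∈ B, p.1 x = some i := ⟨i, p, hp, hx⟩
    have h1 : f x = some h.choose := dif_pos h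
    obtain ⟨q, hq, hqx⟩ := h.choose_spec
    rw [h1]
    rcases hB p hp q hq with hpq | hqp
    · have := hpq x i hx
      rw [hqx] at this
      exact this
    · have := hqp x _ hqx
      rw [hx] at this
      exact this.symm
  refine ⟨⟨f, ?_, ?_⟩, fun p hp x i hx => hf' x i p hp hx⟩
  · intro x y hxy hy
    obtain ⟨i, hi⟩ := Option.isSome_iff_exists.mp hy
    obtain ⟨p, hp, hpy⟩ := hf y i hi
    have h1 : (p.1 x).isSome := p.2.1 x y hxy (by rw [hpy]; rfl)
    obtain ⟨j, hj⟩ := Option.isSome_iff_exists.mp h1
    rw [hf' x j p hp hj]
    rfl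
  · intro x y i hx hy
    obtain ⟨p, hp, hpx⟩ := hf x i hx
    obtain ⟨q, hq, hqy⟩ := hf y i hy
    rcases hB p hp q hq with hpq | hqp
    · exact q.2.2 x y i (hpq x i hpx) hqy
    · exact p.2.2 x y i hpx (hqp y i hqy)

/-! ### The tree is not a union of few antichains -/

open Classical in
/-- The recursion `h w = g (h restricted to w)`. -/
noncomputable def rec' [Nonempty ι] (g : Tree W ι → ι) : W → ι :=
  (wellFounded_lt (α := W)).fix (fun w ih =>
    if H : Good (fun x => if hx : x < w then some (ih x hx) else none) then g ⟨_, H⟩
    else Classical.arbitrary ι)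

open Classical in
/-- The restriction of `rec'` to the points below `w`. -/
noncomputable def restr [Nonempty ι] (g : Tree W ι → ι) (w : W) : W → Option ι :=
  fun x => if x < w then some (rec' g x) else none

open Classical in
lemma rec'_eq [Nonempty ι] (g : Tree W ι → ι) (w : W) (H : Good (restr g w)) :
    rec' g w = g ⟨restr g w, H⟩ := by
  have h := (wellFounded_lt (α := W)).fix_eq (fun w ih =>
    if H : Good (fun x => if hx : x < w then some (ih x hx) else none) then g ⟨_, H⟩
    else Classical.arbitrary ι) w
  have h' : rec' g w = if H : Good (restr g w) then g ⟨_, H⟩ else Classical.arbitrary ι := h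
  rw [h', dif_pos H]

open Classical in
lemma restr_lt [Nonempty ι] (g : Tree W ι → ι) {x y : W} (hxy : x < y) (Hx : Good (restr g x))
    (Hy : Good (restr g y)) :
    @LT.lt (Tree W ι) _ ⟨restr g x, Hx⟩ ⟨restr g y, Hy⟩ := by
  refine lt_of_le_of_ne ?_ ?_
  · intro z i hz
    change (if z < x then some (rec' g z) else none) = some i at hz
    change (if z < y then some (rec' g z) else none) = some i
    by_cases hzx : z < x
    · rw [if_pos hzx] at hz
      rw [if_pos (hzx.trans hxy)]
      exact hz
    · rw [if_neg hzx] at hz
      exact absurd hz (by simp)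
  · intro h
    have h1 : restr g x x = restr g y x := congrFun (congrArg Subtype.val h) x
    have h2 : restr g x x = none := if_neg (lt_irrefl x)
    have h3 : restr g y x = some (rec' g x) := if_pos hxy
    rw [h2, h3] at h1
    exact absurd h1 (by simp)

lemma restr_good [Nonempty ι] (g : Tree W ι → ι) (hg : ∀ p q : Tree W ι, p < q → g p ≠ g q)
    (w : W) : Good (restr g w) := by
  classical
  induction w using WellFoundedLT.induction with
  | ind w ih =>
    constructor
    · intro x y hxy hy
      have hyw : y < w := by
        by_contra h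
        have : restr g w y = none := if_neg h
        rw [this] at hy
        exact absurd hy (by simp)
      have : restr g w x = some (rec' g x) := if_pos (lt_of_le_of_lt hxy hyw)
      rw [this]
      rfl
    · intro x y i hx hy
      have hxw : x < w := by
        by_contra h
        have : restr g w x = none := if_neg h
        rw [this] at hx
        exact absurd hx (by simp)
      have hyw : y < w := by
        by_contra h
        have : restr g w y = none := if_neg h
        rw [this] at hy
        exact absurd hy (by simp)
      have h1 : restr g w x = some (rec' g x) := if_pos hxw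
      have h2 : restr g w y = some (rec' g y) := if_pos hyw
      rw [h1, Option.some.injEq] at hx
      rw [h2, Option.some.injEq] at hy
      have hxy : rec' g x = rec' g y := hx.trans hy.symm
      rw [rec'_eq g x (ih x hxw), rec'_eq g y (ih y hyw)] at hxy
      rcases lt_trichotomy x y with h | h | h
      · exact absurd hxy (hg _ _ (restr_lt g h (ih x hxw) (ih y hyw)))
      · exact h
      · exact absurd hxy.symm (hg _ _ (restr_lt g h (ih y hyw) (ih x hxw)))

/-- There is no function from the tree to `ι` that is injective on chains. -/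
lemma not_special [Nonempty ι] (hW : #ι < #W) (g : Tree W ι → ι)
    (hg : ∀ p q : Tree W ι, p < q → g p ≠ g q) : False := by
  have hinj : Function.Injective (rec' g) := by
    intro x y hxy
    rw [rec'_eq g x (restr_good g hg x), rec'_eq g y (restr_good g hg y)] at hxy
    rcases lt_trichotomy x y with h | h | h
    · exact absurd hxy (hg _ _ (restr_lt g h _ _))
    · exact h
    · exact absurd hxy.symm (hg _ _ (restr_lt g h _ _))
  exact absurd (Cardinal.mk_le_of_injective hinj) (not_le.mpr hW)

end Tree

/-! ### The comparability graph -/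

/-- The comparability graph of a partial order. -/
def comp (T : Type u) [PartialOrder T] : SimpleGraph T := SimpleGraph.fromRel (· ≤ ·)

lemma comp_adj {T : Type u} [PartialOrder T] {x y : T} :
    (comp T).Adj x y ↔ x ≠ y ∧ (x ≤ y ∨ y ≤ x) := SimpleGraph.fromRel_adj _ _ _

/-- In the comparability graph of a tree, a walk between incomparable nodes passes through a
common predecessor. -/
lemma separation {T : Type u} [PartialOrder T]
    (htree : ∀ p q r : T, p ≤ r → q ≤ r → p ≤ q ∨ q ≤ p) (x y : T) {z z' : T}
    (w : (comp T).Walk z z') (hz : ∃ r, r ≤ z ∧ r ≤ x ∧ ¬ r ≤ y)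
    (hz' : ¬ ∃ r, r ≤ z' ∧ r ≤ x ∧ ¬ r ≤ y) :
    ∃ v ∈ w.support, v ≤ x ∧ v ≤ y := by
  induction w with
  | nil => exact absurd hz hz'
  | cons h p ih =>
    rename_i a b c
    by_cases hb : ∃ r, r ≤ b ∧ r ≤ x ∧ ¬ r ≤ y
    · obtain ⟨v, hv, hv'⟩ := ih hb hz'
      exact ⟨v, by rw [SimpleGraph.Walk.support_cons]; exact List.mem_cons_of_mem _ hv, hv'⟩
    · refine ⟨b, ?_, ?_⟩
      · rw [SimpleGraph.Walk.support_cons]
        exact List.mem_cons_of_mem _ p.start_mem_support
      · obtain ⟨r, hra, hrx, hry⟩ := hz
        rcases (comp_adj.mp h).2 with hab | hba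
        · exact absurd ⟨r, hra.trans hab, hrx, hry⟩ hb
        · rcases htree r b a hra hba with hrb | hbr
          · exact absurd ⟨r, hrb, hrx, hry⟩ hb
          · have hbx : b ≤ x := hbr.trans hrx
            refine ⟨hbx, ?_⟩
            by_contra hby
            exact hb ⟨b, le_refl b, hbx, hby⟩

/-- No subdivision of `K_{a⁺}` in the comparability graph of a tree with small chains and small
sets of predecessors. -/
lemma no_subdivision {T : Type u} [PartialOrder T] {a : Cardinal.{u}} (ha : ℵ₀ ≤ a)
    (htree : ∀ p q r : T, p ≤ r → q ≤ r → p ≤ q ∨ q ≤ p)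
    (hpred : ∀ p : T, #(Iic p) ≤ a)
    (hchain : ∀ B : Set T, (∀ p ∈ B, ∀ q ∈ B, p ≤ q ∨ q ≤ p) → ∃ r, ∀ p ∈ B, p ≤ r) :
    ¬ HasSubdivision (comp T) (Order.succ a) := by
  rintro ⟨J, b, P, hJ, hb, -, -, hinner, hdisj⟩
  -- the branch set is not a chain
  have hinc : ∃ i j, ¬ b i ≤ b j ∧ ¬ b j ≤ b i := by
    by_contra hno
    push Not at hno
    obtain ⟨r, hr⟩ := hchain (Set.range b) (by
      rintro _ ⟨i, rfl⟩ _ ⟨j, rfl⟩
      by_cases h : b i ≤ b j
      · exact Or.inl h
      · exact Or.inr (hno i j h))
    have h1 : #J ≤ #(Iic r) := Cardinal.mk_le_of_injective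
      (f := fun i : J => (⟨b i, hr _ ⟨i, rfl⟩⟩ : Iic r))
      (fun i j h => hb (congrArg Subtype.val h))
    have h2 := h1.trans (hpred r)
    rw [hJ] at h2
    exact absurd h2 (not_le.mpr (Order.lt_succ a))
  obtain ⟨i, j, hij, hji⟩ := hinc
  have hne : i ≠ j := fun h => hij (h ▸ le_refl _)
  -- for each other branch vertex we get a common predecessor
  have hv : ∀ k, k ≠ i → k ≠ j → ∃ v, (v ∈ (P i k).support ∨ v ∈ (P k j).support) ∧
      v ≤ b i ∧ v ≤ b j := by
    intro k _ _
    obtain ⟨v, hv, hv'⟩ := separation htree (b i) (b j) ((P i k).append (P k j))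
      ⟨b i, le_refl _, le_refl _, hij⟩ (by
        rintro ⟨r, hr1, _, hr3⟩
        exact hr3 hr1)
    exact ⟨v, (SimpleGraph.Walk.mem_support_append_iff _ _).mp hv, hv'⟩
  have : Nonempty T := ⟨b i⟩
  choose! v hv1 hv2 hv3 using hv
  have hbr : ∀ k, k ≠ i → k ≠ j → v k ∈ Set.range b → v k = b k := by
    intro k hki hkj hvk
    have hvi : v k ≠ b i := fun h => hij (h ▸ hv3 k hki hkj)
    have hvj : v k ≠ b j := fun h => hji (h ▸ hv2 k hki hkj)
    rcases hv1 k hki hkj with h | h
    · rcases hinner i k (Ne.symm hki) _ h hvk with h' | h'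
      · exact absurd h' hvi
      · exact h'
    · rcases hinner k j hkj _ h hvk with h' | h'
      · exact h'
      · exact absurd h' hvj
  have hvinj : ∀ k l, k ≠ i → k ≠ j → l ≠ i → l ≠ j → v k = v l → k = l := by
    intro k l hki hkj hli hlj hkl
    by_contra hne'
    have hrange : v k ∈ Set.range b := by
      rcases hv1 k hki hkj with h | h
      · rcases hv1 l hli hlj with h' | h'
        · refine hdisj i k i l (Ne.symm hki) (Ne.symm hli) ?_ (v k) h (hkl ▸ h')
          intro h''
          rw [Sym2.eq_iff] at h''
          rcases h'' with ⟨_, h''⟩ | ⟨h'', _⟩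
          · exact hne' h''
          · exact hli h''.symm
        · refine hdisj i k l j (Ne.symm hki) hlj ?_ (v k) h (hkl ▸ h')
          intro h''
          rw [Sym2.eq_iff] at h''
          rcases h'' with ⟨h'', _⟩ | ⟨h'', _⟩
          · exact hli h''.symm
          · exact hne h''
      · rcases hv1 l hli hlj with h' | h'
        · refine hdisj k j i l hkj (Ne.symm hli) ?_ (v k) h (hkl ▸ h')
          intro h''
          rw [Sym2.eq_iff] at h''
          rcases h'' with ⟨h'', _⟩ | ⟨h'', _⟩
          · exact hki h''
          · exact hne' h''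
        · refine hdisj k j l j hkj hlj ?_ (v k) h (hkl ▸ h')
          intro h''
          rw [Sym2.eq_iff] at h''
          rcases h'' with ⟨h'', _⟩ | ⟨h'', _⟩
          · exact hne' h''
          · exact hkj h''
    have h1 := hbr k hki hkj hrange
    have h2 := hbr l hli hlj (hkl ▸ hrange)
    exact hne' (hb (h1.symm.trans (hkl.trans h2)))
  classical
  let F : J → Option (Option (Iic (b i))) := fun k =>
    if hki : k = i then none else if hkj : k = j then some none
    else some (some ⟨v k, hv2 k hki hkj⟩)
  have hF : Function.Injective F := by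
    intro k l h
    by_cases hki : k = i
    · by_cases hli : l = i
      · rw [hki, hli]
      · by_cases hlj : l = j
        · simp [F, hki, hlj, Ne.symm hne] at h
        · simp [F, hki, hli, hlj] at h
    · by_cases hkj : k = j
      · by_cases hli : l = i
        · simp [F, hkj, hli, Ne.symm hne] at h
        · by_cases hlj : l = j
          · rw [hkj, hlj]
          · simp [F, hkj, hli, hlj, Ne.symm hne] at h
      · by_cases hli : l = i
        · simp [F, hki, hkj, hli] at h
        · by_cases hlj : l = j
          · simp [F, hki, hkj, hlj, Ne.symm hne] at h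
          · simp only [F, hki, hkj, hli, hlj, dif_neg, not_false_eq_true, Option.some.injEq] at h
            exact hvinj k l hki hkj hli hlj (congrArg Subtype.val h)
  have h1 := Cardinal.mk_le_of_injective hF
  rw [hJ, Cardinal.mk_option, Cardinal.mk_option] at h1
  have h2 : #(Iic (b i)) + 1 + 1 ≤ a := by
    calc #(Iic (b i)) + 1 + 1 ≤ a + 1 + 1 := by gcongr; exact hpred (b i)
      _ = a := by
        rw [Cardinal.add_one_eq ha, Cardinal.add_one_eq ha]
  exact absurd (h1.trans h2) (not_le.mpr (Order.lt_succ a))

/-- **Main result.** For every infinite cardinal `a` there is a graph with chromatic number exactly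
`a⁺` that contains no subdivision of `K_{a⁺}`.  In particular the statement of Q1 fails for every
infinite cardinal `a`. -/
theorem result (a : Cardinal.{u}) (ha : ℵ₀ ≤ a) :
    ¬ Question a ∧
    ∃ (V : Type u) (G : SimpleGraph V), chi G = Order.succ a ∧
      ¬ HasSubdivision G (Order.succ a) := by
  have key : ∃ (V : Type u) (G : SimpleGraph V), chi G = Order.succ a ∧
      ¬ HasSubdivision G (Order.succ a) := by
    classical
    let W : Type u := (Order.succ a).ord.ToType
    let ι : Type u := a.out
    have hι : #ι = a := Cardinal.mk_out a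
    have hWc : #W = Order.succ a := by simp [W]
    have hW : #ι < #W := by rw [hι, hWc]; exact Order.lt_succ a
    have hne : Nonempty ι := by
      rw [← Cardinal.mk_ne_zero_iff, hι]
      exact (lt_of_lt_of_le Cardinal.aleph0_pos ha).ne'
    have hIic : ∀ w : W, #(Iic w) ≤ a := by
      intro w
      have h1 : #(Iio w) < Order.succ a := by
        have := Cardinal.mk_Iio_lt w (by simp [W])
        rwa [hWc] at this
      have h2 : #(Iio w) ≤ a := Order.lt_succ_iff.mp h1
      have h3 : Iic w = insert w (Iio w) := by
        ext x
        simp only [mem_Iic, mem_insert_iff, mem_Iio]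
        exact le_iff_eq_or_lt
      rw [h3]
      calc #(insert w (Iio w) : Set W) ≤ #(Iio w) + 1 := Cardinal.mk_insert_le
        _ ≤ a + 1 := by gcongr
        _ = a := Cardinal.add_one_eq ha
    refine ⟨Tree W ι, comp (Tree W ι), ?_, ?_⟩
    · apply le_antisymm
      · -- the levels are antichains
        refine csInf_le' ?_
        refine ⟨W, fun w => {p | len hW p = w}, hWc, ?_, ?_⟩
        · intro w p hp q hq hpq hadj
          rcases (comp_adj.mp hadj).2 with h | h
          · exact hpq (eq_of_len_eq hW h (le_refl q) (Eq.trans hp (Eq.symm hq)))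
          · exact hpq (eq_of_len_eq hW (le_refl p) h (Eq.trans hp (Eq.symm hq)))
        · ext p
          simp
      · refine le_csInf ?_ ?_
        · refine ⟨_, W, fun w => {p | len hW p = w}, rfl, ?_, ?_⟩
          · intro w p hp q hq hpq hadj
            rcases (comp_adj.mp hadj).2 with h | h
            · exact hpq (eq_of_len_eq hW h (le_refl q) (Eq.trans hp (Eq.symm hq)))
            · exact hpq (eq_of_len_eq hW (le_refl p) h (Eq.trans hp (Eq.symm hq)))
          · ext p
            simp
        · rintro κ ⟨C, I, hC, hI, hcov⟩
          by_contra hlt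
          have hκ : κ ≤ a := Order.lt_succ_iff.mp (not_le.mp hlt)
          rw [← hC, ← hι] at hκ
          obtain ⟨e⟩ := hκ
          have hex : ∀ p : Tree W ι, ∃ c, p ∈ I c := by
            intro p
            have : p ∈ ⋃ c, I c := by rw [hcov]; exact mem_univ p
            exact mem_iUnion.mp this
          choose c hc using hex
          refine not_special hW (fun p => e (c p)) ?_
          intro p q hpq h
          have h1 : c p = c q := e.injective h
          have h2 : q ∈ I (c p) := by rw [h1]; exact hc q
          exact hI (c p) (hc p) h2 hpq.ne (comp_adj.mpr ⟨hpq.ne, Or.inl hpq.le⟩)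
    · exact no_subdivision ha (fun p q r hp hq => tree_prop hp hq)
        (fun p => mk_Iic_le hW hIic p) (fun B hB => chain_bdd B hB)
  refine ⟨?_, key⟩
  intro hQ
  obtain ⟨V, G, hchi, hno⟩ := key
  exact hno (hQ V G hchi.ge)

end Pool.Agent.Results.MP_e76a7e_co.NoTopSuccClique
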